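import Mathlib

open MeasureTheory ProbabilityTheory Finset Function
open scoped ENNReal

namespace Pool.Agent.H.MP_c9564b_pr

lemma hyb {ι X : Type} [DecidableEq ι] [MeasurableSpace X] (ν ν' : Measure X) [IsProbabilityMeasure ν]
    [IsProbabilityMeasure ν'] (f : (ι → X) → ℝ≥0∞) (hf : Measurable f)
    (h : ∀ i x, ∫⁻ s, f (update x i s) ∂ν ≤ ∫⁻ s, f (update x i s) ∂ν') (s : Finset ι) :
    (∫⋯∫⁻_s, f ∂fun _ => ν) ≤ ∫⋯∫⁻_s, f ∂fun _ => ν' := by
  induction s using Finset.induction_on with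
  | empty => simp
  | insert i s hi ih =>
    intro x
    let μ : ι → Measure X := update (fun _ => ν') i ν
    have hμ : ∀ j, SigmaFinite (μ j) := fun j => by
      simp only [μ, update_apply]
      split_ifs <;> infer_instance
    have e : ∀ g : (ι → X) → ℝ≥0∞, (∫⋯∫⁻_s, g ∂μ) = ∫⋯∫⁻_s, g ∂fun _ => ν' := fun g => by
      unfold lmarginal
      congr with y
      congr 2 with j : 1
      exact update_of_ne (ne_of_mem_of_not_mem j.2 hi) _ _
    have e1 := lmarginal_insert (μ := μ) f hf hi x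
    rw [lmarginal_insert' f hf hi, e, e, show μ i = ν from update_self _ _ _] at e1
    rw [lmarginal_insert f hf hi, lmarginal_insert' f hf hi]
    exact ((lintegral_mono fun _ => ih _).trans e1.ge).trans (lmarginal_mono (fun y => h i y) x)

variable {n : ℕ}

def Rec (σ : Fin n ≃ Fin n) (S : ℕ → Finset (Fin n)) (t : ℕ) : Prop :=
  (∀ c, ∃ i < t, c ∈ S i) ∧ ∀ τ : Fin n ≃ Fin n, (∀ i < t, (S i).image τ = (S i).image σ) → τ = σ

noncomputable def T (σ : Fin n ≃ Fin n) (S : ℕ → Finset (Fin n)) : ℝ≥0∞ := ⨅ (t : ℕ) (_ : Rec σ S t), (t : ℝ≥0∞)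

noncomputable def U (n k : ℕ) : Measure (Finset (Fin n)) := uniformOn {S | #S = k}

noncomputable def ET (σ : Fin n ≃ Fin n) (ν : Measure (Finset (Fin n))) : ℝ≥0∞ :=
  ∫⁻ S, T σ S ∂Measure.infinitePi fun _ => ν

lemma mi (e : Fin n ≃ Fin n) (s : Finset (Fin n)) (z : Fin n) : z ∈ s.image e ↔ e.symm z ∈ s := by
  rw [mem_image]
  exact ⟨fun ⟨a, h, h'⟩ => by rw [← h', e.symm_apply_apply]; exact h, fun h => ⟨_, h, e.apply_symm_apply z⟩⟩

lemma rec_iff (σ : Fin n ≃ Fin n) (S : ℕ → Finset (Fin n)) (t : ℕ) :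
    Rec σ S t ↔ (∀ c, ∃ i < t, c ∈ S i) ∧ ∀ x y, (∀ i < t, x ∈ S i ↔ y ∈ S i) → x = y := by
  refine and_congr_right fun _ => ⟨fun h x y hxy => ?_, fun h τ hτ => ?_⟩
  · have := h ((Equiv.swap x y).trans σ) fun i hi => by
      rw [Equiv.coe_trans, ← image_image]
      congr 1
      ext z
      rw [mi, Equiv.symm_swap, Equiv.swap_apply_def]
      have := hxy i hi
      split_ifs with h1 h2
      · rw [h1, this]
      · rw [h2, this]
      · rfl
    simpa [eq_comm] using congrArg (fun e : Fin n ≃ Fin n => e x) this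
  · refine Equiv.ext fun c => ?_
    have := h (σ.symm (τ c)) c fun i hi => by rw [← mi, ← hτ i hi, mi, Equiv.symm_apply_apply]
    rw [Equiv.symm_apply_eq] at this
    exact this

lemma step {r : Fin n → Fin n → Prop} (hs : ∀ x y, r x y → r y x) (ht : ∀ x y z, r x y → r y z → r x z)
    (Z : Set (Fin n)) (A : Finset (Finset (Fin n)))
    (hA : ∀ s, s ∈ A ↔ (∀ c ∈ Z, c ∈ s) ∧ ∀ x y, r x y → (x ∈ s ↔ y ∈ s) → x = y) (k : ℕ) (hk : 2 * (k + 1) ≤ n) :
    #{s ∈ A | #s = k} * (n - k) ≤ #{s ∈ A | #s = k + 1} * (k + 1) := by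
  classical
  let D : Finset (Fin n) := {x | ∃ y, y ≠ x ∧ r x y}
  have hD : ∀ x, x ∈ D ↔ ∃ y, y ≠ x ∧ r x y := fun x => by simp [D]
  have key : ∀ s s' : Finset (Fin n), (∀ x, x ∈ s ↔ x ∉ s') → (∀ x y, r x y → (x ∈ s ↔ y ∈ s) → x = y) →
      #(D ∩ s) ≤ #(D ∩ s') := by
    intro s s' h1 h2
    have : ∀ x, ∃ y, x ∈ D → y ≠ x ∧ r x y := fun x => by
      by_cases h : x ∈ D
      · obtain ⟨y, hy⟩ := (hD x).1 h
        exact ⟨y, fun _ => hy⟩
      · exact ⟨x, fun h' => absurd h' h⟩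
    choose g hg using this
    refine card_le_card_of_injOn g (fun x hx => ?_) fun x hx y hy h => ?_
    · simp only [coe_inter, Set.mem_inter_iff, mem_coe] at hx ⊢
      obtain ⟨h3, h4⟩ := hg x hx.1
      refine ⟨(hD _).2 ⟨x, h3.symm, hs _ _ h4⟩, ?_⟩
      by_contra h5
      exact h3 (h2 x _ h4 (iff_of_true hx.2 ((h1 _).2 h5))).symm
    · simp only [coe_inter, Set.mem_inter_iff, mem_coe] at hx hy
      exact h2 x y (ht _ _ _ (hg x hx.1).2 (h ▸ hs _ _ (hg y hy.1).2)) (iff_of_true hx.2 hy.2)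
  have half : ∀ s ∈ A, #(D ∩ s) = #D / 2 ∧ #(D ∩ sᶜ) = #D / 2 := by
    intro s h
    have h2 := ((hA s).1 h).2
    have e1 := key s sᶜ (by simp) h2
    have e2 := key sᶜ s (by simp) fun x y h3 h4 => h2 x y h3 (by simpa [not_iff_not] using h4)
    have e3 := card_inter_add_card_sdiff D s
    rw [sdiff_eq_inter_compl] at e3
    omega
  have h1 := card_mul_le_card_mul (s := {s ∈ A | #s = k}) (t := {s ∈ A | #s = k + 1}) (· ⊆ ·)
    (m := n - k - #D / 2) (n := k + 1 - #D / 2) (by
      intro s h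
      rw [mem_filter] at h
      have e1 : #(sᶜ \ D) = n - k - #D / 2 := by
        rw [card_sdiff, (half s h.1).2, card_compl, Fintype.card_fin, h.2]
      rw [← e1]
      refine card_le_card_of_injOn (fun x => insert x s) (fun x hx => ?_) fun x hx y hy h => ?_
      · simp only [coe_sdiff, coe_compl, Set.mem_sdiff, Set.mem_compl_iff, mem_coe, hD, mem_bipartiteAbove,
          mem_filter] at hx ⊢
        push Not at hx
        obtain ⟨h3, h4⟩ := (hA s).1 h.1
        refine ⟨⟨(hA _).2 ⟨fun c hc => mem_insert_of_mem (h3 c hc), fun a b h5 h6 => ?_⟩,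
          by rw [card_insert_of_notMem hx.1, h.2]⟩, subset_insert _ _⟩
        by_contra h7
        have h8 : a ≠ x := fun e => hx.2 b (e ▸ Ne.symm h7) (e ▸ h5)
        have h9 : b ≠ x := fun e => hx.2 a (e ▸ h7) (e ▸ hs _ _ h5)
        exact h7 (h4 a b h5 (by simpa [h8, h9] using h6))
      · simp only [coe_sdiff, coe_compl, Set.mem_sdiff, Set.mem_compl_iff, mem_coe] at hx hy
        exact insert_inj hx.1 |>.1 h) (by
      intro s h
      rw [mem_filter] at h
      have e1 : #(s \ D) = k + 1 - #D / 2 := by rw [card_sdiff, (half s h.1).1, h.2]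
      rw [← e1]
      refine le_trans (card_le_card fun u hu => ?_) (card_image_le (f := s.erase))
      simp only [mem_bipartiteBelow, mem_filter] at hu
      obtain ⟨x, hx, rfl⟩ := exists_eq_insert_iff.2 ⟨hu.2, by rw [hu.1.2, h.2]⟩
      refine mem_image.2 ⟨x, mem_sdiff.2 ⟨mem_insert_self _ _, fun hxD => ?_⟩, erase_insert hx⟩
      obtain ⟨y, h3, h4⟩ := (hD x).1 hxD
      by_cases h5 : y ∈ u
      · exact h3 (((hA _).1 h.1).2 x y h4 (by simp [h5])).symm
      · exact h3 (((hA _).1 hu.1.1).2 x y h4 (iff_of_false hx h5)).symm)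
  rcases ({s ∈ A | #s = k} : Finset _).eq_empty_or_nonempty with h | ⟨s, h⟩
  · simp [h]
  rw [mem_filter] at h
  have h2 : #D / 2 ≤ k := by
    rw [← (half s h.1).1, ← h.2]
    exact card_le_card inter_subset_right
  obtain ⟨a, ha⟩ : ∃ a, k = #D / 2 + a := Nat.exists_eq_add_of_le h2
  obtain ⟨b, hb⟩ : ∃ b, n = 2 * (k + 1) + b := Nat.exists_eq_add_of_le hk
  generalize #D / 2 = m at *
  generalize #{s ∈ A | #s = k} = P at *
  generalize #{s ∈ A | #s = k + 1} = Q at *
  rw [show n - k - m = a + 2 + b by omega, show k + 1 - m = a + 1 by omega] at h1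
  rw [show n - k = m + a + 2 + b by omega, ha]
  have h3 : P ≤ Q := Nat.le_of_mul_le_mul_right ((Nat.mul_le_mul_left P (by omega)).trans h1) (by omega : 0 < a + 1)
  nlinarith

lemma U_apply (k : ℕ) (A : Finset (Finset (Fin n))) : U n k A = #{s ∈ A | #s = k} / n.choose k := by
  have h : {S : Finset (Fin n) | #S = k} = (powersetCard k (univ : Finset (Fin n)) : Finset _) := by
    ext s
    simp [mem_powersetCard]
  rw [U, h, uniformOn_apply_finset, card_powersetCard, card_univ, Fintype.card_fin]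
  congr 3
  ext s
  simp [mem_powersetCard, and_comm]

lemma U_prob (k : ℕ) (hk : k ≤ n) : IsProbabilityMeasure (U n k) := by
  refine isProbabilityMeasure_uniformOn (Set.toFinite _) ?_
  obtain ⟨s, -, h⟩ := exists_subset_card_eq (s := (univ : Finset (Fin n))) (n := k) (by simpa using hk)
  exact ⟨s, h⟩

lemma U_mono (σ : Fin n ≃ Fin n) (t i : ℕ) (x : ℕ → Finset (Fin n)) (k l : ℕ) (hkl : k ≤ l) (hl : 2 * l ≤ n) :
    U n l {s | Rec σ (update x i s) t}ᶜ ≤ U n k {s | Rec σ (update x i s) t}ᶜ := by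
  classical
  have p1 := U_prob (n := n) k (by omega)
  have p2 := U_prob (n := n) l (by omega)
  rw [prob_compl_eq_one_sub (Set.toFinite _).measurableSet, prob_compl_eq_one_sub (Set.toFinite _).measurableSet]
  refine tsub_le_tsub_left ?_ _
  by_cases hi : i < t
  swap
  · have e : ∀ s, Rec σ (update x i s) t ↔ Rec σ x t := fun s => by
      have : ∀ j < t, update x i s j = x j := fun j hj => update_of_ne (by omega) _ _
      simp +contextual only [rec_iff, this]
      refine and_congr_left fun _ => forall_congr' fun c => exists_congr fun j => and_congr_right fun hj => ?_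
      rw [this j hj]
    simp only [e]
    by_cases h : Rec σ x t <;> simp [h]
  obtain ⟨A, hA⟩ : ∃ A : Finset (Finset (Fin n)), {s | Rec σ (update x i s) t} = A :=
    ⟨(Set.toFinite {s | Rec σ (update x i s) t}).toFinset, by simp⟩
  have hA' : ∀ s, s ∈ A ↔ (∀ c ∈ {c | ∀ j < t, j ≠ i → c ∉ x j}, c ∈ s) ∧
      ∀ a b, (∀ j < t, j ≠ i → (a ∈ x j ↔ b ∈ x j)) → (a ∈ s ↔ b ∈ s) → a = b := by
    intro s
    rw [← mem_coe, ← hA, Set.mem_ofPred_eq, rec_iff]
    refine and_congr (forall_congr' fun c => ⟨fun ⟨j, hj, h⟩ hc => ?_, fun h => ?_⟩)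
      (forall₂_congr fun a b => ⟨fun h h1 h2 => h fun j hj => ?_, fun h h1 => h (fun j hj h2 => ?_) ?_⟩)
    · by_cases h2 : j = i
      · simpa [h2] using h
      · exact absurd (by simpa [h2] using h) (hc j hj h2)
    · by_cases hc : c ∈ s
      · exact ⟨i, hi, by simpa using hc⟩
      · by_contra h2
        push Not at h2
        exact hc (h fun j hj h3 => by simpa [h3] using h2 j hj)
    · by_cases h3 : j = i
      · simpa [h3] using h2
      · simpa [h3] using h1 j hj h3
    · simpa [h2] using h1 j hj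
    · simpa using h1 i hi
  rw [hA]
  clear p1 p2 hA
  induction l, hkl using Nat.le_induction with
  | base => exact le_rfl
  | succ l hkl ih =>
    refine (ih (by omega)).trans ?_
    have h1 := step (fun a b h j hj h2 => (h j hj h2).symm) (fun a b c h h' j hj h2 => (h j hj h2).trans (h' j hj h2))
      _ A hA' l hl
    have h2 := Nat.choose_succ_right_eq n l
    have h3 : #{s ∈ A | #s = l} * n.choose (l + 1) ≤ #{s ∈ A | #s = l + 1} * n.choose l := by
      refine Nat.le_of_mul_le_mul_right ?_ (Nat.succ_pos l)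
      rw [mul_assoc, h2, mul_left_comm, mul_assoc, mul_left_comm _ (n.choose l)]
      exact Nat.mul_le_mul_left _ h1
    have h4 := Nat.choose_pos (show l ≤ n by omega)
    have h5 := Nat.choose_pos (show l + 1 ≤ n by omega)
    rw [U_apply, U_apply, ← ENNReal.toReal_le_toReal (ENNReal.div_ne_top (by simp) (by simpa using h4.ne'))
      (ENNReal.div_ne_top (by simp) (by simpa using h5.ne'))]
    simp only [ENNReal.toReal_div, ENNReal.toReal_natCast]
    rw [div_le_div_iff₀ (by exact_mod_cast h4) (by exact_mod_cast h5)]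
    exact_mod_cast h3

lemma T_eq (σ : Fin n ≃ Fin n) (S : ℕ → Finset (Fin n)) : T σ S = ∑' t, {S | Rec σ S t}ᶜ.indicator 1 S := by
  classical
  by_cases h : ∃ t, Rec σ S t
  · have h1 : ∀ t, Rec σ S t ↔ Nat.find h ≤ t := fun t => ⟨Nat.find_min' h, fun ht => by
      have := Nat.find_spec h
      rw [rec_iff] at this ⊢
      exact ⟨fun c => (this.1 c).imp fun i hi => ⟨hi.1.trans_le ht, hi.2⟩,
        fun a b hab => this.2 a b fun i hi => hab i (hi.trans_le ht)⟩⟩
    have h2 : ∀ t ∈ range (Nat.find h), {S | Rec σ S t}ᶜ.indicator (1 : (ℕ → Finset (Fin n)) → ℝ≥0∞) S = 1 := fun t ht =>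
      Set.indicator_of_mem (show ¬ Rec σ S t by rw [h1]; exact not_le.2 (mem_range.1 ht)) _
    have h3 : ∀ t ∉ range (Nat.find h), {S | Rec σ S t}ᶜ.indicator (1 : (ℕ → Finset (Fin n)) → ℝ≥0∞) S = 0 := fun t ht =>
      Set.indicator_of_notMem (show ¬¬ Rec σ S t by rw [h1, not_not]; exact not_lt.1 (mt mem_range.2 ht)) _
    rw [tsum_eq_sum h3, sum_congr rfl h2]
    simp only [sum_const, card_range, nsmul_eq_mul, mul_one, T]
    exact le_antisymm (iInf₂_le _ (Nat.find_spec h)) (le_iInf₂ fun t ht => by exact_mod_cast (h1 t).1 ht)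
  · push Not at h
    simp [T, h]

lemma ET_le (σ : Fin n ≃ Fin n) (ν ν' : Measure (Finset (Fin n))) [IsProbabilityMeasure ν] [IsProbabilityMeasure ν']
    (h : ∀ t i x, ν {s | Rec σ (update x i s) t}ᶜ ≤ ν' {s | Rec σ (update x i s) t}ᶜ) : ET σ ν ≤ ET σ ν' := by
  have hm : ∀ t, MeasurableSet[Filtration.piFinset (range t)] {S : ℕ → Finset (Fin n) | Rec σ S t}ᶜ := fun t => by
    refine ⟨{y | ¬ Rec σ (updateFinset (fun _ => ∅) (range t) y) t}, (Set.toFinite _).measurableSet, ?_⟩
    ext S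
    have : ∀ j < t, updateFinset (fun _ => ∅) (range t) ((range t).restrict S) j = S j := fun j hj => by
      simp [updateFinset, hj]
    simp +contextual only [Set.mem_preimage, Set.mem_ofPred_eq, Set.mem_compl_iff, rec_iff, this]
    refine not_congr (and_congr_left fun _ => forall_congr' fun c => exists_congr fun j => and_congr_right fun hj => ?_)
    rw [this j hj]
  have hm' : ∀ t, Measurable ({S : ℕ → Finset (Fin n) | Rec σ S t}ᶜ.indicator (1 : (ℕ → Finset (Fin n)) → ℝ≥0∞)) := fun t =>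
    measurable_one.indicator (Filtration.piFinset.le _ _ (hm t))
  simp only [ET, T_eq]
  rw [lintegral_tsum fun t => (hm' t).aemeasurable, lintegral_tsum fun t => (hm' t).aemeasurable]
  refine ENNReal.tsum_le_tsum fun t => ?_
  have e : Measurable[Filtration.piFinset (range t)]
      ({S : ℕ → Finset (Fin n) | Rec σ S t}ᶜ.indicator (1 : (ℕ → Finset (Fin n)) → ℝ≥0∞)) :=
    Measurable.indicator (m := Filtration.piFinset (range t)) (@measurable_const _ _ _ (_) 1) (hm t)
  rw [lintegral_infinitePi_of_piFinset _ e fun _ => ∅, lintegral_infinitePi_of_piFinset _ e fun _ => ∅]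
  refine hyb ν ν' _ (hm' t) (fun i x => ?_) _ _
  have e2 := fun m : Measure (Finset (Fin n)) =>
    lintegral_indicator_one (μ := m) (s := {s | Rec σ (update x i s) t}ᶜ) (Set.toFinite _).measurableSet
  exact (e2 ν).le.trans ((h t i x).trans (e2 ν').ge)

theorem main (n k₁ k₂ : ℕ) (p : ℝ) (σ : Fin n ≃ Fin n) (h2 : k₁ < k₂) (h3 : 2 * k₂ ≤ n)
    (hp : p ∈ Set.Icc (0 : ℝ) 1) :
    ET σ (U n k₂) ≤ ET σ (ENNReal.ofReal p • U n k₁ + ENNReal.ofReal (1 - p) • U n k₂) ∧
      ET σ (ENNReal.ofReal p • U n k₁ + ENNReal.ofReal (1 - p) • U n k₂) ≤ ET σ (U n k₁) := by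
  have := U_prob (n := n) k₁ (by omega)
  have := U_prob (n := n) k₂ (by omega)
  have h1 : ENNReal.ofReal p + ENNReal.ofReal (1 - p) = 1 := by
    rw [← ENNReal.ofReal_add hp.1 (sub_nonneg.2 hp.2)]
    simp
  have : IsProbabilityMeasure (ENNReal.ofReal p • U n k₁ + ENNReal.ofReal (1 - p) • U n k₂) := ⟨by simpa using h1⟩
  constructor <;> refine ET_le σ _ _ fun t i x => ?_ <;> have h := U_mono σ t i x k₁ k₂ h2.le h3 <;>
    simp only [Measure.add_apply, Measure.smul_apply, smul_eq_mul]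
  · conv_lhs => rw [← one_mul (U n k₂ _), ← h1, add_mul]
    gcongr
  · conv_rhs => rw [← one_mul (U n k₁ _), ← h1, add_mul]
    gcongr

end Pool.Agent.H.MP_c9564b_pr
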